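import Pool.Agent.H17.S4d

set_option autoImplicit false

namespace Pool.Agent.Results.MP_53b42b_nt.Unbounded

/-- `S k m n`: the coefficient of `x ^ n` in `(1 - x) ^ (-m) ∏ (1 - x ^ (k ^ i)) ^ (-m (k - 1))`.
The factor `1 / (1 - x ^ (k ^ i))` is the series with coefficient `1` at the multiples of `k ^ i`;
the factors with `i > n` do not affect the coefficient. -/
noncomputable def S (k m n : ℕ) : ℤ :=
  PowerSeries.coeff n ((PowerSeries.mk (fun _ : ℕ => (1 : ℤ))) ^ m * (∏ i ∈ Finset.range (n + 1),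
    PowerSeries.mk (fun j : ℕ => if k ^ i ∣ j then (1 : ℤ) else 0)) ^ (m * (k - 1)))

theorem result : ∀ m : ℕ, m % 8 = 6 →
    (∀ n, 0 < S 4 m n) ∧ ∀ B : ℕ, ∃ n : ℕ, (4 : ℤ) ^ B ∣ S 4 m n := fun m hm =>
  ⟨fun n => Pool.Agent.H17.S4.S_pos m n (by omega), Pool.Agent.H17.S4.unbounded m hm⟩

end Pool.Agent.Results.MP_53b42b_nt.Unbounded
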